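import Pool.Agent.W990.EB.Stm

set_option autoImplicit false
open Finset

namespace Pool.Agent.W605.EB

open Pool.Agent.W990.EB

theorem rep_finite (A : Set ℕ) (n : ℕ) :
    {x : ℕ × ℕ | x.1 ∈ A ∧ x.2 ∈ A ∧ x.1 + x.2 = n}.Finite := by
  refine Set.Finite.subset ((range (n + 1) ×ˢ range (n + 1)).finite_toSet) ?_
  rintro ⟨a, b⟩ ⟨_, _, h⟩
  simp only [Finset.coe_product, Finset.coe_range, Set.mem_prod, Set.mem_Iio]
  have h' : a + b = n := h
  constructor <;> omega

theorem tr : S_TR := by
  intro A N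
  classical
  refine ⟨(range (N + 1)).filter (fun a => a ∈ A), ?_, ?_, ?_, ?_⟩
  · intro a
    rw [Finset.mem_filter, Finset.mem_range]
    constructor
    · rintro ⟨h1, h2⟩; exact ⟨h2, by omega⟩
    · rintro ⟨h1, h2⟩; exact ⟨by omega, h1⟩
  · intro n hn
    have : {x : ℕ × ℕ | x.1 ∈ A ∧ x.2 ∈ A ∧ x.1 + x.2 = n} =
        (((((range (N + 1)).filter (fun a => a ∈ A)) ×ˢ ((range (N + 1)).filter (fun a => a ∈ A))).filter
          (fun x : ℕ × ℕ => x.1 + x.2 = n) : Finset (ℕ × ℕ)) : Set (ℕ × ℕ)) := by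
      ext ⟨a, b⟩
      simp only [Finset.coe_filter, Finset.mem_product, Finset.mem_filter, Finset.mem_range]
      constructor
      · rintro ⟨h1, h2, h3⟩
        have h1' : a ∈ A := h1
        have h2' : b ∈ A := h2
        have h3' : a + b = n := h3
        exact ⟨⟨⟨by omega, h1'⟩, ⟨by omega, h2'⟩⟩, h3'⟩
      · rintro ⟨⟨⟨_, h1⟩, ⟨_, h2⟩⟩, h3⟩
        exact ⟨h1, h2, h3⟩
    unfold r rep
    rw [this, Set.ncard_coe_finset]
  · intro n
    unfold r rep
    rw [← Set.ncard_coe_finset]
    refine Set.ncard_le_ncard ?_ (rep_finite A n)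
    rintro ⟨a, b⟩ h
    simp only [Finset.coe_filter, Finset.mem_product, Finset.mem_filter, Finset.mem_range] at h
    obtain ⟨⟨⟨_, h1⟩, ⟨_, h2⟩⟩, h3⟩ := h
    exact ⟨h1, h2, h3⟩
  · intro n hn
    unfold r
    rw [Finset.card_eq_zero, Finset.filter_eq_empty_iff]
    rintro ⟨a, b⟩ h
    simp only [Finset.mem_product, Finset.mem_filter, Finset.mem_range] at h
    change ¬ (a + b = n)
    omega

/-- a number with an odd number of representations is twice an element -/
theorem exists_of_odd (A : Set ℕ) (n : ℕ) (h : ¬ Even (rep A n)) : ∃ a ∈ A, n = 2 * a := by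
  by_contra hc
  push Not at hc
  apply h
  obtain ⟨F, hF⟩ := (rep_finite A n).exists_finset
  have hcard : rep A n = F.card := by
    unfold rep
    rw [← Set.ncard_coe_finset]
    congr 1
    ext x
    exact (hF x).symm
  have hsum : ∑ _x ∈ F, (1 : ZMod 2) = 0 := by
    refine Finset.sum_involution (fun x _ => (x.2, x.1)) ?_ ?_ ?_ ?_
    · intro x _; decide
    · intro x hx _ heq
      obtain ⟨h1, h2, h3⟩ := (hF x).mp hx
      have h4 : x.2 = x.1 := congrArg Prod.fst heq
      exact hc x.1 h1 (by omega)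
    · intro x hx
      obtain ⟨h1, h2, h3⟩ := (hF x).mp hx
      exact (hF _).mpr ⟨h2, h1, by change x.2 + x.1 = n; omega⟩
    · intro x hx; rfl
  rw [Finset.sum_const, nsmul_eq_mul, mul_one] at hsum
  rw [hcard]
  exact (ZMod.natCast_eq_zero_iff_even).mp hsum

theorem oddrep : S_ODDREP := by
  intro A R hR δ hδ
  classical
  obtain ⟨N₀, hN₀⟩ := exists_nat_ge (2 * (R : ℝ) / δ ^ 2)
  filter_upwards [Filter.eventually_ge_atTop N₀] with N hN
  set B := (range N).filter (fun a => a ∈ A) with hB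
  have h1 : ((range N).filter (fun n => ¬ Even (rep A n))).card ≤ B.card := by
    refine le_trans (Finset.card_le_card (t := B.image (fun a => 2 * a)) ?_)
      Finset.card_image_le
    intro n hn
    rw [Finset.mem_filter, Finset.mem_range] at hn
    obtain ⟨a, ha, hna⟩ := exists_of_odd A n hn.2
    rw [Finset.mem_image]
    refine ⟨a, ?_, hna.symm⟩
    rw [hB, Finset.mem_filter, Finset.mem_range]
    exact ⟨by omega, ha⟩
  have h2 : B.card * B.card ≤ 2 * N * R := by
    rw [← Finset.card_product]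
    have hmaps : ∀ x ∈ B ×ˢ B, x.1 + x.2 ∈ range (2 * N) := by
      intro x hx
      rw [Finset.mem_product, hB, Finset.mem_filter, Finset.mem_filter, Finset.mem_range,
        Finset.mem_range] at hx
      rw [Finset.mem_range]
      omega
    rw [Finset.card_eq_sum_card_fiberwise (f := fun x : ℕ × ℕ => x.1 + x.2) hmaps]
    calc ∑ n ∈ range (2 * N), ((B ×ˢ B).filter (fun x => x.1 + x.2 = n)).card
        ≤ ∑ _n ∈ range (2 * N), R := by
          refine Finset.sum_le_sum (fun n _ => le_trans ?_ (hR n))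
          unfold rep
          rw [← Set.ncard_coe_finset]
          refine Set.ncard_le_ncard ?_ (rep_finite A n)
          rintro ⟨a, b⟩ h
          simp only [hB, Finset.coe_filter, Finset.mem_product, Finset.mem_filter,
            Finset.mem_range] at h
          obtain ⟨⟨⟨_, h1⟩, ⟨_, h2⟩⟩, h3⟩ := h
          exact ⟨h1, h2, h3⟩
      _ = 2 * N * R := by rw [Finset.sum_const, Finset.card_range, smul_eq_mul]
  have h3 : (B.card : ℝ) ^ 2 ≤ (δ * N) ^ 2 := by
    have h2' : (B.card : ℝ) * B.card ≤ 2 * N * R := by exact_mod_cast h2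
    have hN' : 2 * (R : ℝ) / δ ^ 2 ≤ N := hN₀.trans (by exact_mod_cast hN)
    rw [div_le_iff₀ (by positivity)] at hN'
    have hNn : (0 : ℝ) ≤ N := Nat.cast_nonneg N
    nlinarith [mul_le_mul_of_nonneg_left hN' hNn]
  have h4 : (B.card : ℝ) ≤ δ * N :=
    (pow_le_pow_iff_left₀ (by positivity) (by positivity) (by norm_num)).mp h3
  exact le_trans (by exact_mod_cast h1) h4

end Pool.Agent.W605.EB
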